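import Pool.Agent.H12.EU.Equiv
import Pool.Agent.H12.EV.Assemble
import Pool.Agent.H12.EV.Walk
import Pool.Agent.H12.EV.ShortsRho
import Pool.Agent.H82.EV.Renew
import Pool.Agent.H83.EX.Uniq

/-!
The Kakutani 5x+1 map: asymptotic formulas for the number of `n` in an interval `(x, x + H]` whose
trajectory rises above `L * n`, or above `n ^ ρ`, before it falls below `n`; the densities are the
probabilities of the model of the problem; upper bounds for all `L` and all `ρ`; and the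
equivalence with `t(n) > n ^ ρ` for infinitely many `n`.

The definitions are in `Pool/Agent/H83/EX/Defs.lean` (`C`, `t`, `P`, `F`, `IsThetaStar`),
`Pool/Agent/H12/EU/Const.lean` (`Exceeds`, `Stays`), `Pool/Agent/H12/EU/Uni.lean` (`Rises`) and
`Pool/Agent/H12/EV/Walk.lean` (`W`, `model`).
-/

namespace Pool.Agent.Results.MP_4d3999_nt.Asymptotics

open Filter Pool.Agent.H83.EX Pool.Agent.H12.EU
open Pool.Agent.H12.EV (model)

lemma ncard_I (x H : ℕ) (L : ℝ) :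
    Set.ncard {n : ℕ | x < n ∧ n ≤ x + H ∧ Rises L n} = Pool.Agent.H12.EV.I L x H := by
  classical
  have h : {n : ℕ | x < n ∧ n ≤ x + H ∧ Rises L n} =
      (((Finset.Ioc x (x + H)).filter (fun n : ℕ => Rises L n) : Finset ℕ) : Set ℕ) := by
    ext n
    rw [Finset.mem_coe, Finset.mem_filter, Finset.mem_Ioc]
    constructor
    · intro hn
      exact ⟨⟨hn.1, hn.2.1⟩, hn.2.2⟩
    · intro hn
      exact ⟨hn.1.1, hn.1.2, hn.2⟩
  rw [h, Set.ncard_coe_finset]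
  unfold Pool.Agent.H12.EV.I
  congr

lemma ncard_I' (x H : ℕ) (L : ℝ) :
    Set.ncard {n : ℕ | x < n ∧ n ≤ x + H ∧ (Rises L n ∨ Stays n)} =
      Pool.Agent.H12.EV.I' L x H := by
  classical
  have h : {n : ℕ | x < n ∧ n ≤ x + H ∧ (Rises L n ∨ Stays n)} =
      (((Finset.Ioc x (x + H)).filter (fun n : ℕ => Rises L n ∨ Stays n) : Finset ℕ) :
        Set ℕ) := by
    ext n
    rw [Finset.mem_coe, Finset.mem_filter, Finset.mem_Ioc]
    constructor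
    · intro hn
      exact ⟨⟨hn.1, hn.2.1⟩, hn.2.2⟩
    · intro hn
      exact ⟨hn.1.1, hn.1.2, hn.2⟩
  rw [h, Set.ncard_coe_finset]
  unfold Pool.Agent.H12.EV.I'
  congr

lemma ncard_J (x H : ℕ) (ρ : ℝ) :
    Set.ncard {n : ℕ | x < n ∧ n ≤ x + H ∧ Exceeds ρ n} = Pool.Agent.H12.EV.J ρ x H := by
  classical
  have h : {n : ℕ | x < n ∧ n ≤ x + H ∧ Exceeds ρ n} =
      (((Finset.Ioc x (x + H)).filter (fun n : ℕ => Exceeds ρ n) : Finset ℕ) : Set ℕ) := by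
    ext n
    rw [Finset.mem_coe, Finset.mem_filter, Finset.mem_Ioc]
    constructor
    · intro hn
      exact ⟨⟨hn.1, hn.2.1⟩, hn.2.2⟩
    · intro hn
      exact ⟨hn.1.1, hn.1.2, hn.2⟩
  rw [h, Set.ncard_coe_finset]
  unfold Pool.Agent.H12.EV.J
  congr

lemma ncard_J' (x H : ℕ) (ρ : ℝ) :
    Set.ncard {n : ℕ | x < n ∧ n ≤ x + H ∧ (Exceeds ρ n ∨ Stays n)} =
      Pool.Agent.H12.EV.J' ρ x H := by
  classical
  have h : {n : ℕ | x < n ∧ n ≤ x + H ∧ (Exceeds ρ n ∨ Stays n)} =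
      (((Finset.Ioc x (x + H)).filter (fun n : ℕ => Exceeds ρ n ∨ Stays n) : Finset ℕ) :
        Set ℕ) := by
    ext n
    rw [Finset.mem_coe, Finset.mem_filter, Finset.mem_Ioc]
    constructor
    · intro hn
      exact ⟨⟨hn.1, hn.2.1⟩, hn.2.2⟩
    · intro hn
      exact ⟨hn.1.1, hn.1.2, hn.2⟩
  rw [h, Set.ncard_coe_finset]
  unfold Pool.Agent.H12.EV.J'
  congr

lemma ncard_S' (N : ℕ) (ρ : ℝ) :
    Set.ncard {n : ℕ | 1 ≤ n ∧ n ≤ N ∧ (Exceeds ρ n ∨ Stays n)} = S' ρ N := by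
  classical
  have h : {n : ℕ | 1 ≤ n ∧ n ≤ N ∧ (Exceeds ρ n ∨ Stays n)} =
      (((Finset.Icc 1 N).filter (fun n : ℕ => Exceeds ρ n ∨ Stays n) : Finset ℕ) : Set ℕ) := by
    ext n
    rw [Finset.mem_coe, Finset.mem_filter, Finset.mem_Icc]
    constructor
    · intro hn
      exact ⟨⟨hn.1, hn.2.1⟩, hn.2.2⟩
    · intro hn
      exact ⟨hn.1.1, hn.1.2, hn.2⟩
  rw [h, Set.ncard_coe_finset]
  unfold S'
  congr

/-- There is exactly one `θ > 0` for which the Perron root of `F θ * P` is one, and for this `θ`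
there is `κ > 0` such that:

* for every `η > 0`, all `x`, all large `H` and `L₀ ≤ L ≤ H ^ 0.06`, the number of the `n` in
  `(x, x + H]` whose trajectory rises above `L * n` before it falls below `n` is between
  `(κ - η) * H * L ^ (-θ)` and `(κ + η) * H * L ^ (-θ)`, also if those which never fall below `n`
  are counted;
* for every `L > 1` the frequency of these `n` in `(x, x + H]` tends to `model L`, the probability
  of this event in the model of the problem, uniformly in `x`, also if those which never fall below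
  `n` are counted; and `model L * L ^ θ` tends to `κ`;
* for `1 < ρ ≤ 1.06`, `a = 1 - θ * (ρ - 1)`, the number of the `n` in `(x, x + H]` whose
  trajectory exceeds `n ^ ρ` before it falls below `n` is `(κ / a + o(1)) * ((x + H) ^ a - x ^ a)`,
  uniformly for large `H` and all `x` with `(x + H) ^ (ρ - 1) ≤ H ^ 0.06` (for `x = 0` this holds
  for all `H`), also if those which never fall below `n` are counted;
* for all `L ≥ 1` and all `ρ > 1` there are upper bounds with the error exponent `0.86`;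
* for `ρ > 0`, `t(n) > n ^ ρ` for infinitely many `n` if and only if infinitely many trajectories
  exceed `n ^ ρ` before they fall below `n`. -/
theorem result : ∃ θ : ℝ, IsThetaStar θ ∧ (∀ θ' : ℝ, IsThetaStar θ' → θ' = θ) ∧
    ∃ κ : ℝ, 0 < κ ∧
    (∀ η : ℝ, 0 < η → ∃ (H₀ : ℕ) (L₀ : ℝ), ∀ x H : ℕ, H₀ ≤ H → ∀ L : ℝ, L₀ ≤ L →
      L ≤ (H : ℝ) ^ (3 / 50 : ℝ) →
      (κ - η) * ((H : ℝ) * L ^ (-θ)) ≤
        (Set.ncard {n : ℕ | x < n ∧ n ≤ x + H ∧ Rises L n} : ℝ) ∧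
      (Set.ncard {n : ℕ | x < n ∧ n ≤ x + H ∧ (Rises L n ∨ Stays n)} : ℝ) ≤
        (κ + η) * ((H : ℝ) * L ^ (-θ))) ∧
    (∀ L : ℝ, 1 < L → ∀ η : ℝ, 0 < η → ∃ H₀ : ℕ, ∀ x H : ℕ, H₀ ≤ H →
      (model L - η) * (H : ℝ) ≤
        (Set.ncard {n : ℕ | x < n ∧ n ≤ x + H ∧ Rises L n} : ℝ) ∧
      (Set.ncard {n : ℕ | x < n ∧ n ≤ x + H ∧ (Rises L n ∨ Stays n)} : ℝ) ≤
        (model L + η) * (H : ℝ)) ∧
    Tendsto (fun L : ℝ => model L * L ^ θ) atTop (nhds κ) ∧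
    (∀ ρ : ℝ, 1 < ρ → ρ ≤ 53 / 50 → ∀ η : ℝ, 0 < η → ∃ H₀ : ℕ, ∀ x H : ℕ, H₀ ≤ H →
      ((x : ℝ) + H) ^ (ρ - 1) ≤ (H : ℝ) ^ (3 / 50 : ℝ) →
      (κ / (1 - θ * (ρ - 1)) - η) *
        (((x : ℝ) + H) ^ (1 - θ * (ρ - 1)) - (x : ℝ) ^ (1 - θ * (ρ - 1))) ≤
        (Set.ncard {n : ℕ | x < n ∧ n ≤ x + H ∧ Exceeds ρ n} : ℝ) ∧
      (Set.ncard {n : ℕ | x < n ∧ n ≤ x + H ∧ (Exceeds ρ n ∨ Stays n)} : ℝ) ≤
        (κ / (1 - θ * (ρ - 1)) + η) *
        (((x : ℝ) + H) ^ (1 - θ * (ρ - 1)) - (x : ℝ) ^ (1 - θ * (ρ - 1)))) ∧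
    (∃ C₀ : ℝ, ∀ x H : ℕ, 1 ≤ H → ∀ L : ℝ, 1 ≤ L →
      (Set.ncard {n : ℕ | x < n ∧ n ≤ x + H ∧ (Rises L n ∨ Stays n)} : ℝ) ≤
        C₀ * ((H : ℝ) * L ^ (-θ) + (H : ℝ) ^ (43 / 50 : ℝ))) ∧
    (∀ ρ : ℝ, 1 < ρ → ∃ C₀ : ℝ, ∀ N : ℕ, 1 ≤ N →
      (Set.ncard {n : ℕ | 1 ≤ n ∧ n ≤ N ∧ (Exceeds ρ n ∨ Stays n)} : ℝ) ≤
        C₀ * (N : ℝ) ^ (max (1 - θ * (ρ - 1)) (43 / 50))) ∧
    (∀ ρ : ℝ, 0 < ρ →
      ({n : ℕ | (((n : ℝ) ^ ρ : ℝ) : EReal) < t n}.Infinite ↔ {n : ℕ | Exceeds ρ n}.Infinite)) := by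
  obtain ⟨θ, hθ⟩ := exists_thetaStar
  have hθ' := hθ
  obtain ⟨hθ0, w, hw, hv⟩ := hθ'
  have hE := eqs_of hv
  have hlt : θ < 52 / 23 := theta_lt hθ0 hw hE
  have hgt : 2 < θ := theta_gt hθ0 hw hE
  have hPar := Pool.Agent.H12.EV.par_of hgt hlt hw hE
  obtain ⟨c, hc0, hc⟩ := Pool.Agent.H82.EV.renewal hPar
  obtain ⟨κ, hκ⟩ := Pool.Agent.H12.EV.hyp_of hPar hc
  have hpos := Pool.Agent.H12.EV.mean_pos hθ hκ
  refine ⟨θ, hθ, fun θ' h' => thetaStar_unique hθ h', Pool.Agent.H12.EV.mean κ, hpos,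
    ?_, ?_, Pool.Agent.H12.EV.model_lim hκ, ?_, ?_, ?_, fun ρ hρ => infinite_iff hρ⟩
  · intro η hη
    obtain ⟨H0, L0, h1⟩ := Pool.Agent.H12.EV.I_asym hθ0 hlt hκ hη
    refine ⟨H0, L0, ?_⟩
    intro x H hH L hL hLH
    rw [ncard_I, ncard_I']
    exact h1 x H hH L hL hLH
  · intro L hL η hη
    obtain ⟨H0, h1⟩ := Pool.Agent.H12.EV.I_dens hL hη
    refine ⟨H0, ?_⟩
    intro x H hH
    rw [ncard_I, ncard_I', Pool.Agent.H12.EV.model_eq]
    exact h1 x H hH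
  · intro ρ h1 h2 η hη
    obtain ⟨H0, h3⟩ := Pool.Agent.H12.EV.J_asym hθ0 hlt hκ hpos h1 h2 hη
    refine ⟨H0, ?_⟩
    intro x H hH hxH
    rw [ncard_J, ncard_J']
    exact h3 x H hH hxH
  · obtain ⟨C₀, _, hup⟩ := Pool.Agent.H12.EV.I_all hPar hθ
    refine ⟨C₀, ?_⟩
    intro x H hH L hL
    rw [ncard_I']
    exact hup x H hH L hL
  · intro ρ h1
    obtain ⟨C₀, _, hup⟩ := upper hθ h1.le
    refine ⟨C₀, ?_⟩
    intro N hN
    rw [ncard_S']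
    exact hup N hN

end Pool.Agent.Results.MP_4d3999_nt.Asymptotics
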